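import Pool.Agent.Lib.KBlk.Defs

/-!
Matrices in fixed point arithmetic that carry their offset and their error (helper84).
-/

namespace Pool.Agent.Lib.KMx

open Pool.Agent.Lib.KLA Pool.Agent.Lib.KBlk

noncomputable section

/-- Offset, error, side conditions, rows. -/
structure MT where
  (K e : Nat)
  (ok : Bool)
  (f : Nat → Nat)

/-- The largest of `f 0, ..., f (n - 1)`. -/
def mxF (f : Nat → Nat) (n : Nat) : Nat :=
  Nat.rec (motive := fun _ => Nat) 0 (fun i ih => Nat.add ih (Nat.sub (f i) ih)) n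

/-- `2 K < 2 ^ W`. -/
def fit (W K : Nat) : Bool := Nat.ble (Nat.add (Nat.mul 2 K) 1) (Nat.shiftLeft 1 W)

/-- The first `16 c` rows, evaluated. -/
def rows (c : Nat) (T : MT) : Rows := (rgen (fun i => strict i T.f) c 0).force

/-- The rows from `n` on are replaced by zero. -/
def zr (W p n : Nat) (T : MT) : MT :=
  (fun z : Nat => (⟨T.K, T.e, T.ok, fun i => cnd (Nat.ble n i) z (T.f i)⟩ : MT))
    (Nat.mul T.K (ones W p))

/-- The first `16 c` rows are evaluated once. -/
def mem (W p c : Nat) (T : MT) : MT := zr W p (Nat.mul 16 c) ⟨T.K, T.e, T.ok, (rows c T).get⟩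

def add (T U : MT) : MT :=
  ⟨Nat.add T.K U.K, Nat.add T.e U.e, bnd T.ok U.ok, fun i => Nat.add (T.f i) (U.f i)⟩

def sml (c : Nat) (T : MT) : MT := ⟨Nat.mul c T.K, Nat.mul c T.e, T.ok, fun i => Nat.mul c (T.f i)⟩

def neg (W p : Nat) (T : MT) : MT := ⟨T.K, T.e, T.ok, fun i => vneg W p T.K (T.f i)⟩

/-- Division of a vector with offset `K ≤ 2 ^ s K'` by `2 ^ s`. -/
def rn (W p s K K' x : Nat) : Nat :=
  rnd W s 0 p (Nat.add x (Nat.mul (Nat.sub (Nat.shiftLeft K' s) K) (ones W p)))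

/-- Division by `2 ^ s`, rounded. -/
def rnT (W p s : Nat) (T : MT) : MT :=
  (fun K : Nat => (⟨K, Nat.add (Nat.shiftRight T.e s) 2,
    bnd T.ok (bnd (Nat.ble (Nat.add s 1) W) (fit W (Nat.shiftLeft K s))),
    fun i => rn W p s T.K K (T.f i)⟩ : MT)) (Nat.add (Nat.shiftRight T.K s) 1)

/-- The offset `2 ^ b` for the first `n` rows, if their entries are that small. -/
def tgt (W p n b : Nat) (T : MT) : MT :=
  (fun y z M : Nat => zr W p n ⟨Nat.shiftLeft 1 b, T.e,
    bnd T.ok (bnd (bnd (Nat.ble (Nat.add b 1) W)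
      (Nat.ble (Nat.add T.K (Nat.shiftLeft 1 (Nat.add b 2))) (Nat.shiftLeft 1 W)))
      (allR (fun i => small (Nat.add (T.f i) y) z M) 0 n)),
    fun i => Nat.sub (Nat.add (T.f i) y) z⟩)
    (Nat.shiftLeft (ones W p) b) (Nat.mul T.K (ones W p)) (msk W (Nat.add b 1) p)

/-- Every `g`-th entry, in slots of `W` instead of `V` bits. -/
def rs (V g W p : Nat) (T : MT) : MT :=
  ⟨T.K, T.e, bnd T.ok (fit V T.K), fun i =>
    rsl (Nat.mul g V) W (Nat.add (Nat.div p 16) 1) (Nat.land (T.f i) (msk (Nat.mul g V) V p))⟩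

/-- Stored rows. -/
def lit (W p K : Nat) (R : Rows) : MT := zr W p R.len ⟨K, 0, true, R.get⟩

/-- `K` times the unit matrix. -/
def idm (W p K : Nat) : MT :=
  zr W p p ⟨K, 0, true, fun i => Nat.add (Nat.mul K (ones W p)) (Nat.shiftLeft K (Nat.mul W i))⟩

/-- One column with the entries `f 0, ..., f (n - 1)`. -/
def gen (W n e : Nat) (f : Nat → Nat) : MT :=
  (fun K : Nat => zr W 1 n ⟨K, e, true, fun i => Nat.add (f i) K⟩) (mxF f n)

/-- The rows below `n` from `T`, the others from `U`. -/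
def stk (n : Nat) (T U : MT) : MT :=
  ⟨T.K, Nat.add T.e U.e, bnd (bnd T.ok U.ok) (Nat.beq T.K U.K),
    fun i => cnd (Nat.ble n i) (strict (Nat.sub i n) U.f) (T.f i)⟩

/-- The transposed matrix of the first `16 c` rows. -/
def tr (W p c : Nat) (T : MT) : MT :=
  zr W (Nat.mul 16 c) p ⟨T.K, T.e, bnd T.ok (fit W T.K), fun j => col W j (rows c T)⟩

/-- The first `16 c` rows one after the other. -/
def cc (W p c : Nat) (T : MT) : MT :=
  ⟨T.K, T.e, bnd T.ok (fit W T.K), fun _ => col (Nat.mul W p) 0 (rows c T)⟩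

/-- The product; `T` has `16 c` columns. -/
def mm (W p c : Nat) (T U : MT) : MT :=
  (fun (n : Nat) (D : Rows) => (fun E : Nat => (⟨E,
    Nat.mul n (Nat.add (Nat.mul T.K U.e) (Nat.mul (Nat.add U.K U.e) T.e)),
    bnd (bnd T.ok U.ok) (fit W (Nat.add (Nat.mul n T.K) 1)),
    fun i => vml W W p n T.K U.K E D D.sum (T.f i)⟩ : MT)) (Nat.mul n (Nat.mul T.K U.K)))
    (Nat.mul 16 c) (rows c U)

/-- Row `i < n` is row `σ i` times `± A u i / v i`; `A` is known up to `k`. -/
def dsc (W p n A k : Nat) (sg : Bool) (u v σ : Nat → Nat) (T : MT) : MT :=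
  (fun a : Nat → Nat => (fun Ka : Nat => zr W p n ⟨Nat.mul Ka T.K,
    Nat.add (Nat.mul Ka T.e) (Nat.mul 2 (Nat.add T.K T.e)),
    bnd T.ok (allR (fun i => bnd (Nat.ble 1 (v i)) (Nat.ble (Nat.mul k (u i)) (v i))) 0 n),
    fun i => strict (a i) fun x => strict (strict (σ i) T.f) fun y =>
      Nat.add (Nat.mul x (cnd sg (vneg W p T.K y) y))
        (Nat.mul (Nat.mul (Nat.sub Ka x) T.K) (ones W p))⟩) (mxF a n))
    fun i => Nat.div (Nat.mul A (u i)) (v i)

/-- The growth of bounds in a three term recurrence. -/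
def gK (α β γ : Nat → Nat) (K m : Nat) : Nat × Nat :=
  Nat.rec (motive := fun _ => Nat × Nat) (0, K) (fun i ih =>
    (ih.2, Nat.add (Nat.mul (Nat.add (α i) (β i)) ih.2) (Nat.mul (γ i) ih.1))) m

/-- The levels `z (m + 1) = α z m - β (z m shifted by s bits) - γ z (m - 1)`. -/
def lv (s K : Nat) (α β γ : Nat → Nat) (q : Nat) : Nat → Nat → Nat → Nat → Nat → List Nat :=
  Nat.rec (motive := fun _ => Nat → Nat → Nat → Nat → Nat → List Nat) (fun _ _ _ _ _ => [])
    (fun _ ih m x y o M => y :: strict m fun m =>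
      strict (Nat.shiftRight o s) fun o => strict (Nat.shiftRight M s) fun M =>
      strict (Nat.sub (Nat.add (Nat.mul (α m) (Nat.land y M)) (Nat.mul (Nat.mul 2 (Nat.add
          (Nat.mul (β m) (gK α β γ K m).2) (Nat.mul (γ m) (gK α β γ K m).1))) o))
        (Nat.add (Nat.mul (β m) (Nat.shiftRight y s)) (Nat.mul (γ m) (Nat.land x M)))) fun z =>
      ih (Nat.add m 1) y z o M) q

/-- Row `i < n` holds the first `p` entries of level `ρ i < L`, divided by `2 ^ sh i`. The
recurrence starts from the first `h L + p` entries of row zero of `T`. -/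
def lev (W h p L n : Nat) (α β γ ρ sh : Nat → Nat) (T : MT) : MT :=
  (fun (M : Nat) (G : Nat → Nat → Nat) => (fun (l : List Nat) (K : Nat) => zr W p n ⟨K,
    Nat.add (mxF (fun i => Nat.shiftRight (G T.e (ρ i)) (sh i)) n) 2,
    bnd (bnd T.ok (allR (fun m => fit W (G T.K m)) 0 (Nat.add L 1))) (allR (fun i =>
      bnd (Nat.ble (ρ i) L) (bnd (Nat.ble (Nat.add (sh i) 1) W)
        (fit W (Nat.shiftLeft K (sh i))))) 0 n),
    fun i => strict (ρ i) fun m => strict (sh i) fun s =>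
      rn W p s (G T.K m) K (Nat.land (lget l m) (low (Nat.mul W p)))⟩)
      (lv (Nat.mul W h) T.K α β γ (Nat.add L 1) 0 0 (Nat.land (T.f 0) M)
        (ones W (Nat.add (Nat.mul h L) p)) M)
      (Nat.add (mxF (fun i => Nat.shiftRight (G T.K (ρ i)) (sh i)) n) 1))
    (low (Nat.mul W (Nat.add (Nat.mul h L) p))) fun K m => (gK α β γ K m).2

/-- The entries of the first `n` rows are at most `2 ^ (b + 1)`. -/
def fin (W p n b : Nat) (T : MT) : Bool :=
  bnd (tgt W p n b T).ok (Nat.ble T.e (Nat.shiftLeft 1 b))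

/-- The sums of the absolute values in the first `n` rows are at most `B`. -/
def l1r (W p n b B : Nat) (T : MT) : Bool :=
  (fun U : MT => bnd (bnd U.ok (fit W (Nat.add (Nat.shiftLeft p b) 1))) (allR (fun i => Nat.ble
    (Nat.add (dsum W (vabs W b p (U.f i))) (Nat.mul p (Nat.add T.e 1))) B) 0 n)) (tgt W p n b T)

/-- `a (a + s) ... (a + s (n - 1))`. -/
def pq (s a n : Nat) : Nat :=
  Nat.rec (motive := fun _ => Nat) 1 (fun i ih => Nat.mul ih (Nat.add a (Nat.mul s i))) n

end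

end Pool.Agent.Lib.KMx
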