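import Pool.Agent.Lib.KMx.Defs
import Pool.Agent.Lib.KBlk.TermS
import Pool.Agent.Lib.Dy.Enc

/-!
The meaning of the operations on matrices with errors (helper84).
-/

namespace Pool.Agent.Lib.KMx

open Finset Pool.Agent.Lib.KLA Pool.Agent.Lib.KBlk Pool.Agent.Lib.Dy

/-- Row `i` of `T` has `p` entries, which are close to `g i`. -/
def Rep (W p : ℕ) (T : MT) (g : ℕ → ℕ → ℝ) : Prop :=
  T.ok = true → ∀ i, Apx W p T.K (T.f i) (g i) T.e

/-- The rows from `n` on are zero. -/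
def up (n : ℕ) (g : ℕ → ℕ → ℝ) : ℕ → ℕ → ℝ := fun i j => if i < n then g i j else 0

/-- The sign. -/
def sgn (b : Bool) : ℝ := if b then -1 else 1

variable {W p n c K x : ℕ} {T U : MT} {g g' : ℕ → ℕ → ℝ} {v : ℕ → ℤ}

theorem Rep.congr (h : Rep W p T g) (e : ∀ i, ∀ j < p, g' i j = g i j) : Rep W p T g' :=
  fun k i => (h k i).congr fun j hj => (e i j hj).symm

theorem le_mxF (f : ℕ → ℕ) : ∀ {n i : ℕ}, i < n → f i ≤ mxF f n
  | 0, _, h => absurd h (Nat.not_lt_zero _)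
  | n + 1, i, h => by
    change f i ≤ mxF f n + (f n - mxF f n)
    rcases Nat.lt_succ_iff_lt_or_eq.1 h with h | rfl
    · have := le_mxF f h
      omega
    · omega

theorem fit_iff : fit W K = true ↔ 2 * K < 2 ^ W := by
  simp only [fit, Nat.ble_eq, Nat.add_eq, Nat.mul_eq, shl_eq, one_mul]
  rfl

theorem rows_get (T : MT) {i : ℕ} (h : i < 16 * c) : (rows c T).get i = T.f i := by
  rw [rows, force_eq, rgen_get _ _ _ _ h, zero_add, strict_eq]

theorem Rep.mat (h : Rep W p T g) (k : T.ok = true) (c : ℕ) : ∃ v, Mat W p T.K (16 * c) (rows c T) v ∧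
    ∀ i, ∀ j < p, |(v i j : ℝ) - g i j| ≤ T.e := by
  choose v h1 h2 using h k
  exact ⟨v, (mat_rgen fun i _ => h1 i).force, h2⟩

theorem rep_zr (hW : 0 < W) (h : T.ok = true → ∀ i < n, Apx W p T.K (T.f i) (g i) T.e) :
    Rep W p (zr W p n T) (up n g) := fun k i => by
  simp only [zr, cnd_eq, Nat.ble_eq]
  split_ifs with h1
  · exact ((Vec.apx (vec_zero hW p T.K)).mono (Nat.cast_nonneg _)).congr fun _ _ => by
      simp [up, h1]
  · exact (h k i (not_le.1 h1)).congr fun _ _ => (if_pos (not_le.1 h1)).symm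

theorem Rep.zr (h : Rep W p T g) (hW : 0 < W) (n : ℕ) : Rep W p (zr W p n T) (up n g) :=
  rep_zr hW fun k i _ => h k i

theorem Rep.mem (h : Rep W p T g) (hW : 0 < W) (c : ℕ) :
    Rep W p (mem W p c T) (up (16 * c) g) :=
  rep_zr hW fun k i hi => by
    simp only [rows_get T hi]
    exact h k i

theorem Rep.add (h : Rep W p T g) (h' : Rep W p U g') :
    Rep W p (add T U) fun i j => g i j + g' i j := fun k i => by
  obtain ⟨k1, k2⟩ := (bnd_iff _ _).1 k
  simpa only [KMx.add, Nat.add_eq, Nat.cast_add] using (h k1 i).add (h' k2 i)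

theorem apx_sml {g : ℕ → ℝ} {e : ℝ} (h : Apx W p K x g e) (c : ℕ) :
    Apx W p (c * K) (Nat.mul c x) (fun j => c * g j) (c * e) := by
  obtain ⟨v, v1, v2⟩ := h
  refine ⟨_, v1.smul c, fun j hj => ?_⟩
  push_cast
  rw [← mul_sub, abs_mul, Nat.abs_cast]
  exact mul_le_mul_of_nonneg_left (v2 j hj) (Nat.cast_nonneg c)

theorem Rep.sml (h : Rep W p T g) (c : ℕ) : Rep W p (sml c T) fun i j => c * g i j := fun k i => by
  simpa only [KMx.sml, Nat.mul_eq, Nat.cast_mul] using apx_sml (h k i) c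

theorem Rep.neg (h : Rep W p T g) (hW : 0 < W) : Rep W p (neg W p T) fun i j => -g i j :=
  fun k i => (h k i).neg hW

theorem shr_lt (a s : ℕ) : a ≤ (a / 2 ^ s + 1) * 2 ^ s := by
  have := Nat.lt_div_mul_add (a := a) (show 0 < 2 ^ s by positivity)
  nlinarith

theorem apx_rn {g : ℕ → ℝ} {e s K' e' : ℕ} (h : Apx W p K x g e) (hs : s < W)
    (hK : K / 2 ^ s + 1 ≤ K') (hf : 2 * (K' * 2 ^ s) < 2 ^ W) (he : e / 2 ^ s ≤ e') :
    Apx W p K' (rn W p s K K' x) (fun j => g j / 2 ^ s) (e' + 2 : ℕ) := by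
  obtain ⟨v, v1, v2⟩ := h
  have h1 : K ≤ K' * 2 ^ s := (shr_lt K s).trans (Nat.mul_le_mul_right _ hK)
  have t := v1.more (by omega) (K' * 2 ^ s - K)
  rw [Nat.add_sub_cancel' h1, mul_comm K'] at t
  have t2 := t.rnd (d := 0) (q := p) hs (by rwa [mul_comm _ K']) (by omega)
  refine ⟨_, by simpa only [rn, shl_eq, mul_comm K', Nat.sub_eq] using t2, fun j hj => ?_⟩
  have hp : (0 : ℝ) < 2 ^ s := by positivity
  have a1 := ediv_err (v j) s
  have a2 : |(v j : ℝ) / 2 ^ s - g j / 2 ^ s| ≤ e' + 1 := by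
    rw [← sub_div, abs_div, abs_of_pos hp, div_le_iff₀ hp]
    exact (v2 j hj).trans (by
      exact_mod_cast (shr_lt e s).trans (Nat.mul_le_mul_right _ (by omega)))
  rw [zero_add]
  push_cast at a1 ⊢
  linarith [abs_sub_le (((v j / 2 ^ s : ℤ) : ℝ)) (v j / 2 ^ s) (g j / 2 ^ s)]

theorem Rep.rnT (h : Rep W p T g) (s : ℕ) : Rep W p (rnT W p s T) fun i j => g i j / 2 ^ s :=
  fun k i => by
  simp only [KMx.rnT, bnd_iff, Nat.ble_eq, fit_iff, Nat.add_eq, shl_eq, shr_eq] at k ⊢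
  exact apx_rn (h k.1 i) k.2.1 le_rfl k.2.2 le_rfl

theorem tgt_vec {b i : ℕ} (k : (tgt W p n b T).ok = true) (hi : i < n)
    (h : Vec W p T.K (T.f i) v) : T.ok = true ∧ b < W ∧
      Vec W p (2 ^ b) ((tgt W p n b T).f i) v ∧ ∀ j < p, v j < 2 ^ b := by
  simp only [tgt, zr, bnd_iff, Nat.ble_eq, Nat.add_eq, shl_eq, one_mul] at k
  obtain ⟨k0, ⟨k1, k2⟩, k3⟩ := k
  obtain ⟨y, y1, y2⟩ := tight_sound (f := fun y => Nat.beq y ((tgt W p n b T).f i)) (by
    rw [tight, chk, bnd_iff]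
    refine ⟨by simpa only [Nat.add_eq, shl_eq] using allR_spec k3 i (Nat.zero_le _) (by omega), ?_⟩
    simp only [tgt, zr, cnd_eq, Nat.ble_eq, if_neg hi.not_ge, Nat.beq_refl]) h k1 k2
  exact ⟨k0, k1, Nat.eq_of_beq_eq_true y1 ▸ y2⟩

theorem tgt_ok {b : ℕ} (k : (tgt W p n b T).ok = true) : T.ok = true ∧ b < W := by
  simp only [tgt, zr, bnd_iff, Nat.ble_eq, Nat.add_eq] at k
  exact ⟨k.1, k.2.1.1⟩

theorem Rep.tgt (h : Rep W p T g) (n b : ℕ) : Rep W p (tgt W p n b T) (up n g) := fun k => by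
  have k0 := tgt_ok k
  refine rep_zr (by omega) (fun _ i hi => ?_) k
  obtain ⟨v, v1, v2⟩ := h k0.1 i
  have := (tgt_vec k hi v1).2.2.1
  simp only [KMx.tgt, KMx.zr, cnd_eq, Nat.ble_eq, if_neg hi.not_ge] at this
  exact ⟨v, by simpa only [shl_eq, one_mul] using this, v2⟩

theorem Rep.rs {V q r : ℕ} (h : Rep V q T g) (hV : 0 < V) (hr : 0 < r) (hq : r * p ≤ q) :
    Rep W p (rs V r W p T) fun i j => g i (r * j) := fun k i => by
  simp only [KMx.rs, bnd_iff, fit_iff] at k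
  obtain ⟨v, v1, v2⟩ := h k.1 i
  have hj : ∀ j < p, r * j < q := fun j hj => (Nat.mul_lt_mul_of_pos_left hj hr).trans_le hq
  have h1 := land_msk (W := r * V) (by positivity) (Nat.le_mul_of_pos_left V hr) p (T.f i)
  have h2 : 2 ^ V ≤ 2 ^ (r * V) := Nat.pow_le_pow_right two_pos (Nat.le_mul_of_pos_left V hr)
  refine ⟨fun j => v (r * j), vec_rsl ⟨h1.trans (pk_congr fun j h => ?_), fun j h => v1.2 _ (hj j h)⟩
    (k.2.trans_le h2) (by change p ≤ 16 * (p / 16 + 1); omega), fun j h => v2 _ (hj j h)⟩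
  rw [← v1.ent k.2 (hj j h), show r * V * j = V * (r * j) by ring]

theorem rep_lit {R : Rows} {a : ℕ → ℕ → ℤ} (hW : 0 < W) (h : Mat W p K n R a) :
    Rep W p (lit W p K R) (up n fun i j => a i j) := by
  rw [lit, h.1]
  exact rep_zr hW fun _ i hi => by simpa using Vec.apx (h.2 i hi)

theorem rep_idm (hW : 0 < W) : Rep W p (idm W p K) fun i j => if i = j then K else 0 := by
  refine (rep_zr (g := fun i j => if i = j then K else 0) hW fun _ i hi =>
    ⟨fun j => if i = j then K else 0, ⟨?_, fun j _ => ?_⟩, fun j _ => ?_⟩).congr fun i j hj => ?_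
  · simp only [Nat.add_eq, Nat.mul_eq, shl_eq, pk, add_mul, sum_add_distrib, ite_mul, zero_mul,
      sum_ite_eq, mem_range, hi, if_true]
    push_cast
    rw [← pk_const hW, pk, add_comm]
  · by_cases h : i = j <;> simp [h]
  · simp
  · by_cases h : i = j <;> simp [up, h, hj]

theorem rep_gen {e : ℕ} {f : ℕ → ℕ} {y : ℕ → ℝ} (hW : 0 < W) (h : ∀ i < n, |f i - y i| ≤ e) :
    Rep W 1 (gen W n e f) (up n fun i _ => y i) :=
  rep_zr hW fun _ i hi => ⟨fun _ => f i, ⟨by simp [pk], fun _ _ => by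
    rw [Nat.abs_cast]
    exact_mod_cast le_mxF f hi⟩, fun _ _ => by simpa using h i hi⟩

theorem Rep.stk (h : Rep W p T g) (h' : Rep W p U g') (n : ℕ) :
    Rep W p (stk n T U) fun i => if i < n then g i else g' (i - n) := fun k i => by
  simp only [KMx.stk, bnd_iff, Nat.beq_eq, cnd_eq, Nat.ble_eq, strict_eq, Nat.add_eq,
    Nat.cast_add] at k ⊢
  by_cases hi : i < n
  · rw [if_neg hi.not_ge, if_pos hi]
    exact (h k.1.1 i).mono (le_add_of_nonneg_right (Nat.cast_nonneg _))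
  · rw [if_pos (not_lt.1 hi), if_neg hi, k.2]
    exact (h' k.1.2 _).mono (le_add_of_nonneg_left (Nat.cast_nonneg _))

theorem Rep.tr (h : Rep W p T g) (hW : 0 < W) (c : ℕ) :
    Rep W (16 * c) (tr W p c T) (up p fun j i => g i j) :=
  rep_zr hW fun k j hj => by
    simp only [bnd_iff, fit_iff] at k
    obtain ⟨v, v1, v2⟩ := h.mat k.1 c
    exact ⟨_, v1.col hj k.2, fun i _ => v2 i j hj⟩

theorem Rep.cc (h : Rep W p T g) (hW : 0 < W) (hp : 0 < p) (c : ℕ) :
    Rep W (p * (16 * c)) (cc W p c T) fun _ i => g (i / p) (i % p) := fun k _ => by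
  simp only [KMx.cc, bnd_iff, fit_iff] at k
  obtain ⟨v, v1, v2⟩ := h.mat k.1 c
  have hi : ∀ i < p * (16 * c), i / p < 16 * c := fun i hi => Nat.div_lt_of_lt_mul hi
  refine ⟨fun i => v (i / p) (i % p), ⟨(colA_eq (W * p) (W * p * 0) _).trans ?_, fun i h =>
    (v1.2 _ (hi i h)).2 _ (Nat.mod_lt _ hp)⟩, fun i _ => v2 _ _ (Nat.mod_lt _ hp)⟩
  rw [v1.1]
  refine (pk_congr fun i h => ?_).trans (pk_nest hp W (fun i j => v i j + T.K) _)
  simpa using bits_blk hW (v1.2 i h).1 (fun j hj => (v1.2 i h).dig k.2 hj) (d := 0) (q := p)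
    (by omega)

theorem near_mul {a b x y A B d e : ℝ} (ha : |a| ≤ A) (hb : |b| ≤ B) (h : |a - x| ≤ d)
    (h' : |b - y| ≤ e) : |a * b - x * y| ≤ A * e + (B + e) * d := by
  have h1 : |y| ≤ B + e := by
    have := abs_sub_abs_le_abs_sub y b
    rw [abs_sub_comm] at this
    linarith
  rw [show a * b - x * y = a * (b - y) + y * (a - x) by ring]
  refine (abs_add_le _ _).trans (add_le_add ?_ ?_) <;> rw [abs_mul]
  · exact mul_le_mul ha h' (abs_nonneg _) ((abs_nonneg _).trans ha)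
  · exact mul_le_mul h1 h (abs_nonneg _) ((abs_nonneg _).trans h1)

theorem Rep.mm (h : Rep W (16 * c) T g) (h' : Rep W p U g') (hW : 0 < W) :
    Rep W p (mm W p c T U) fun i j => ∑ k ∈ range (16 * c), g i k * g' k j := fun k i => by
  simp only [KMx.mm, bnd_iff, fit_iff, Nat.add_eq, Nat.mul_eq] at k ⊢
  obtain ⟨v, v1, v2⟩ := h k.1.1 i
  obtain ⟨w, w1, w2⟩ := h'.mat k.1.2 c
  refine ⟨_, vml_sound hW v1 w1 rfl (by rw [mul_assoc 2]; omega) fun j hj => ?_, fun j hj => ?_⟩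
  · refine (abs_sum_le_sum_abs _ _).trans ((sum_le_card_nsmul _ _ ((T.K : ℤ) * U.K)
      fun a ha => ?_).trans (by simp))
    rw [abs_mul]
    exact mul_le_mul (v1.2 a (mem_range.1 ha)) ((w1.2 a (mem_range.1 ha)).2 j hj) (abs_nonneg _)
      (by positivity)
  · push_cast
    rw [← sum_sub_distrib]
    refine (abs_sum_le_sum_abs _ _).trans ((sum_le_card_nsmul _ _ _ fun a ha => near_mul
      (A := T.K) (B := U.K) (by exact_mod_cast v1.2 a (mem_range.1 ha))
      (by exact_mod_cast (w1.2 a (mem_range.1 ha)).2 j hj) (v2 a (mem_range.1 ha))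
      (w2 a j hj)).trans (by simp [mul_add]))

theorem Rep.dsc {A k N : ℕ} {y : ℝ} (h : Rep W p T g) (hW : 0 < W) (hA : Enc N y A k) (n : ℕ)
    (sg : Bool) (u w σ : ℕ → ℕ) : Rep W p (dsc W p n A k sg u w σ T)
      (up n fun i j => sgn sg * (2 ^ N * y * u i / w i) * g (σ i) j) := by
  refine rep_zr hW fun k i hi => ?_
  simp only [bnd_iff, strict_eq, Nat.add_eq, Nat.mul_eq, Nat.sub_eq] at k ⊢
  have k1 := allR_spec k.2 i (Nat.zero_le _) (by omega)
  simp only [bnd_iff, Nat.ble_eq] at k1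
  have k2 := le_mxF (fun i => Nat.div (A * u i) (w i)) hi
  have k3 := (hA.ratDiv (i := 1) k1.1 (by simpa using k1.2)).abs
  generalize mxF (fun i => Nat.div (A * u i) (w i)) n = Ka at k2 ⊢
  change A * u i / w i ≤ Ka at k2
  change Apx W p _ (A * u i / w i * _ + (Ka - A * u i / w i) * _ * _) _ _
  generalize A * u i / w i = a at k2 k3
  obtain ⟨v, v1, v2⟩ : Apx W p T.K (cnd sg (vneg W p T.K (T.f (σ i))) (T.f (σ i)))
      (fun j => sgn sg * g (σ i) j) T.e := by
    cases sg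
    · simpa [cnd, sgn] using h k.1 (σ i)
    · simpa [cnd, sgn] using (h k.1 (σ i)).neg hW
  have t := (v1.smul a).more hW ((Ka - a) * T.K)
  rw [← add_mul, Nat.add_sub_cancel' k2] at t
  refine ⟨_, t, fun j hj => ?_⟩
  rw [abs_sub_comm] at k3
  have := near_mul (A := Ka) (B := T.K) (by rw [Nat.abs_cast]; exact_mod_cast k2)
    (by exact_mod_cast v1.2 j hj) k3 (v2 j hj)
  push_cast at this ⊢
  rw [show sgn sg * (2 ^ N * y * u i / w i) * g (σ i) j =
    2 ^ N * (y * u i / w i) * (sgn sg * g (σ i) j) by ring]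
  linarith

theorem vec_blk (hW : 0 < W) (h : Vec W p K x v) (hK : 2 * K < 2 ^ W) {d q : ℕ} (hq : d + q ≤ p) :
    Vec W q K (bits x (W * d) (W * q)) fun j => v (d + j) :=
  ⟨bits_blk hW h.1 (fun _ hj => h.dig hK hj) hq, fun j hj => h.2 _ (by omega)⟩

theorem vec_cut (hW : 0 < W) (h : Vec W p K x v) (hK : 2 * K < 2 ^ W) {q : ℕ} (hq : q ≤ p) :
    Vec W q K (Nat.land x (low (W * q))) v := by
  rw [land_low]
  simpa [bits] using vec_blk hW h hK (d := 0) (q := q) (by omega)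

theorem vec_shr (hW : 0 < W) {d q : ℕ} (h : Vec W (d + q) K x v) (hK : 2 * K < 2 ^ W) :
    Vec W q K (Nat.shiftRight x (W * d)) fun j => v (d + j) := by
  have h1 := vec_cut hW h hK le_rfl
  have h2 : x % 2 ^ (W * (d + q)) = x := by
    rw [← land_low]
    exact_mod_cast h1.1.trans h.1.symm
  have h3 : x < 2 ^ (W * (d + q)) := h2 ▸ Nat.mod_lt _ (by positivity)
  have := vec_blk hW h hK (d := d) (q := q) le_rfl
  rwa [bits, Nat.mod_eq_of_lt (Nat.div_lt_of_lt_mul (by rwa [← pow_add, ← mul_add])), ← shr_eq]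
    at this

theorem low_shr (a b : ℕ) : Nat.shiftRight (low (a + b)) a = low b := by
  rw [shr_eq, low_eq, low_eq]
  refine Nat.eq_of_testBit_eq fun i => ?_
  simp [Nat.testBit_div_two_pow, Nat.testBit_two_pow_sub_one, add_comm]

theorem ones_shr (hW : 0 < W) (d q : ℕ) : Nat.shiftRight (ones W (d + q)) (W * d) = ones W q := by
  have h1 : (1 : ℤ) < 2 ^ W := one_lt_pow₀ one_lt_two hW.ne'
  have h2 := bits_blk hW (ones_eq hW (d + q)) (fun _ _ => ⟨zero_le_one, h1⟩) (d := 0) (q := d)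
    (by omega)
  have h3 : ones W (d + q) = ones W d + ones W q * 2 ^ (W * d) := by
    have := ones_eq hW (d + q)
    rw [pk_split, ← ones_eq hW, ← ones_eq hW] at this
    exact_mod_cast this
  rw [← ones_eq hW] at h2
  have h4 : ones W d < 2 ^ (W * d) := Int.natCast_inj.1 h2 ▸ bits_lt _ _ _
  rw [shr_eq, h3, Nat.add_mul_div_right _ _ (by positivity), Nat.div_eq_of_lt h4, zero_add]

section

variable {h e : ℕ} {α β γ : ℕ → ℕ} {F : ℕ → ℕ → ℝ}

theorem lv_sound (hW : 0 < W)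
    (hF : ∀ m i, F (m + 2) i = α m * F (m + 1) i - β m * F (m + 1) (h + i) - γ m * F m i) :
    ∀ (q m x y r : ℕ), (∀ i ≤ q, 2 * (gK α β γ K (m + i)).2 < 2 ^ W) →
      2 * (gK α β γ K m).1 < 2 ^ W → h * q + p ≤ r →
      Apx W r (gK α β γ K m).1 x (F m) (gK α β γ e m).1 →
      Apx W (h * q + p) (gK α β γ K m).2 y (F (m + 1)) (gK α β γ e m).2 → ∀ i ≤ q,
        Apx W p (gK α β γ K (m + i)).2 (Nat.land (lget (lv (W * h) K α β γ (q + 1) m x y
          (ones W (h * q + p)) (low (W * (h * q + p)))) i) (low (W * p))) (F (m + i + 1))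
          (gK α β γ e (m + i)).2
  | q, m, x, y, r, k, _, _, _, ⟨v, v1, v2⟩, 0, _ =>
    ⟨v, vec_cut hW v1 (k 0 (Nat.zero_le _)) (by omega), fun j hj => v2 j (by omega)⟩
  | 0, _, _, _, _, _, _, _, _, _, i + 1, hi => by omega
  | q + 1, m, x, y, r, k, k0, hr, ⟨u, u1, u2⟩, ⟨v, v1, v2⟩, i + 1, hi => by
    have e1 : h * (q + 1) + p = h + (h * q + p) := by ring
    have k1 := k 0 (Nat.zero_le _)
    rw [e1] at v1 v2 hr ⊢
    have t := lv_sound hW hF q (m + 1) y _ _ (fun i hi => by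
      rw [add_assoc, add_comm 1]; exact k (i + 1) (by omega)) k1 (Nat.le_add_left _ h) ⟨v, v1, v2⟩
      ⟨_, (vec_of (E := (gK α β γ K (m + 1)).2) (a := α m * Nat.land y (low (W * (h * q + p)))
        + 2 * (β m * (gK α β γ K m).2 + γ m * (gK α β γ K m).1) * ones W (h * q + p))
        (b := β m * Nat.shiftRight y (W * h) + γ m * Nat.land x (low (W * (h * q + p))))
        (v := fun j => α m * v j - β m * v (h + j) - γ m * u j) ?_ fun j hj => ?_),
        fun j hj => ?_⟩ i (by omega)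
    · rw [add_assoc m 1, add_comm 1] at t
      change Apx W p _ (Nat.land (lget (lv (W * h) K α β γ (q + 1) (m + 1) y _
        (Nat.shiftRight _ _) (Nat.shiftRight _ _)) i) _) _ _
      rw [mul_add W h]
      simp only [low_shr, ones_shr hW]
      exact t
    · push_cast
      rw [(vec_cut hW v1 k1 (Nat.le_add_left _ h)).1, (vec_shr hW v1 k1).1,
        (vec_cut hW u1 k0 (by omega)).1, ← pk_const hW, pk_mul, pk_mul, pk_mul, pk_add, pk_add,
        pk_sub]
      refine pk_congr fun j _ => ?_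
      change _ = _ + (((α m + β m) * (gK α β γ K m).2 + γ m * (gK α β γ K m).1 : ℕ) : ℤ)
      push_cast
      ring
    · change _ ≤ (((α m + β m) * (gK α β γ K m).2 + γ m * (gK α β γ K m).1 : ℕ) : ℤ)
      have a1 := mul_le_mul_of_nonneg_left (v1.2 j (by omega)) (Nat.cast_nonneg (α m))
      have a2 := mul_le_mul_of_nonneg_left (v1.2 (h + j) (by omega)) (Nat.cast_nonneg (β m))
      have a3 := mul_le_mul_of_nonneg_left (u1.2 j (by omega)) (Nat.cast_nonneg (γ m))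
      refine (abs_sub _ _).trans ((add_le_add (abs_sub _ _) le_rfl).trans ?_)
      simp only [abs_mul, Nat.abs_cast]
      push_cast
      linarith
    · change _ ≤ (((α m + β m) * (gK α β γ e m).2 + γ m * (gK α β γ e m).1 : ℕ) : ℝ)
      have a1 := mul_le_mul_of_nonneg_left (v2 j (by omega)) (Nat.cast_nonneg (α m))
      have a2 := mul_le_mul_of_nonneg_left (v2 (h + j) (by omega)) (Nat.cast_nonneg (β m))
      have a3 := mul_le_mul_of_nonneg_left (u2 j (by omega)) (Nat.cast_nonneg (γ m))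
      push_cast
      rw [hF, show ∀ a b c x y z x' y' z' : ℝ, a * x - b * y - c * z - (a * x' - b * y' - c * z') =
        a * (x - x') - b * (y - y') - c * (z - z') from fun _ _ _ _ _ _ _ _ _ => by ring]
      refine (abs_sub _ _).trans ((add_le_add (abs_sub _ _) le_rfl).trans ?_)
      simp only [abs_mul, Nat.abs_cast]
      linarith

/-- The levels of a three term recurrence. -/
theorem Rep.lev {r L : ℕ} {ρ sh : ℕ → ℕ} (hT : Rep W r T g) (hW : 0 < W) (hr : h * L + p ≤ r)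
    (h0 : ∀ i < h * L + p, F 0 i = g 0 i) (hγ : γ 0 = 0)
    (hF : ∀ m i, F (m + 1) i = α m * F m i - β m * F m (h + i) - γ m * F (m - 1) i) :
    Rep W p (lev W h p L n α β γ ρ sh T) (up n fun i j => F (ρ i) j / 2 ^ sh i) := by
  refine rep_zr hW fun k i hi => ?_
  simp only [bnd_iff, strict_eq, Nat.add_eq, Nat.mul_eq, shr_eq] at k ⊢
  have k1 := fun m (hm : m ≤ L) => fit_iff.1 (allR_spec k.1.2 m (Nat.zero_le _) (by omega))
  have k2 := allR_spec k.2 i (Nat.zero_le _) (by omega)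
  simp only [bnd_iff, Nat.ble_eq, fit_iff, shl_eq] at k2
  obtain ⟨v, v1, v2⟩ := hT k.1.1 0
  have t := lv_sound (p := p) (K := T.K) (e := T.e) (α := α) (β := β) (γ := γ)
    (F := fun m => Nat.rec (fun _ => 0) (fun m _ => F m) m) hW
    (fun m i => (hF m i).trans (by cases m <;> simp [hγ])) L 0 0 _ _
    (by simpa using k1) (Nat.two_pow_pos W) le_rfl ⟨fun _ => 0, ⟨by simp [pk, gK], by simp⟩, by simp⟩
    ⟨v, vec_cut hW v1 (k1 0 (Nat.zero_le _)) hr, fun j hj => by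
      have := v2 j (by omega)
      rwa [← h0 j hj] at this⟩ (ρ i) k2.1
  simp only [zero_add] at t
  exact apx_rn t k2.2.1 (Nat.succ_le_succ (le_mxF (fun i => (gK α β γ T.K (ρ i)).2 / 2 ^ sh i) hi))
    k2.2.2 (le_mxF (fun i => (gK α β γ T.e (ρ i)).2 / 2 ^ sh i) hi)

end

theorem Rep.fin {b : ℕ} (h : Rep W p T g) (k : fin W p n b T = true) {i j : ℕ} (hi : i < n)
    (hj : j < p) : |g i j| ≤ 2 ^ (b + 1) := by
  simp only [KMx.fin, bnd_iff, Nat.ble_eq, shl_eq, one_mul] at k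
  obtain ⟨v, v1, v2⟩ := h (tgt_ok k.1).1 i
  have a1 : |(v j : ℝ)| ≤ 2 ^ b := by exact_mod_cast (tgt_vec k.1 hi v1).2.2.1.2 j hj
  have a2 : (T.e : ℝ) ≤ 2 ^ b := by exact_mod_cast k.2
  have a3 := abs_sub_abs_le_abs_sub (g i j) (v j)
  rw [abs_sub_comm] at a3
  linarith [v2 j hj, pow_succ (2 : ℝ) b]

theorem Rep.l1r {b B : ℕ} (h : Rep W p T g) (k : l1r W p n b B T = true) {i : ℕ} (hi : i < n) :
    ∑ j ∈ range p, |g i j| ≤ B := by
  simp only [KMx.l1r, bnd_iff, fit_iff, Nat.add_eq, Nat.mul_eq, shl_eq] at k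
  obtain ⟨v, v1, v2⟩ := h (tgt_ok k.1.1).1 i
  obtain ⟨-, t1, t2, t3⟩ := tgt_vec k.1.1 hi v1
  have a1 : ((∑ j ∈ range p, |v j| : ℤ) : ℝ) ≤ _ :=
    Int.cast_le.2 (abs_sum_le t2 (fun j hj => by exact_mod_cast t3 j hj) t1 (by omega))
  have a2 : ((_ : ℕ) : ℝ) ≤ B :=
    Nat.cast_le.2 (Nat.le_of_ble_eq_true (allR_spec k.2 i (Nat.zero_le _) (by omega)))
  have a3 := sum_le_sum (s := range p) (f := fun j => |g i j|)
    (g := fun j => |(v j : ℝ)| + T.e) fun j hj => by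
    have a3 := abs_sub_abs_le_abs_sub (g i j) (v j)
    rw [abs_sub_comm] at a3
    linarith [v2 j (mem_range.1 hj)]
  simp only [sum_add_distrib, sum_const, card_range, nsmul_eq_mul] at a3
  push_cast at a1 a2
  linarith

theorem pq_succ (s a n : ℕ) : pq s a (n + 1) = pq s a n * (a + s * n) := rfl

theorem pq_fac : ∀ n, pq 1 1 n = n.factorial
  | 0 => rfl
  | n + 1 => by rw [pq_succ, pq_fac n, Nat.factorial_succ]; ring

end Pool.Agent.Lib.KMx
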